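import Pool.Agent.Lib.helper9.GLib

namespace Pool.Agent.Results.MP_58e31d_lc.Extension

open Pool.Agent.Cx Pool.Agent.H9G

/-- yes-instances of list `F`-colouring: a graph `G` (adjacency matrix, loops allowed), for every
vertex a list (a 0-1 row of length `m`), and an `F`-colouring of `G` that respects the lists -/
def ListCol {m : ℕ} (F : Fin m → Fin m → Prop) (I : List (List Bool) × List (List Bool)) : Prop :=
  H9G.IsGraph I.1 ∧ I.2.length = I.1.length ∧ (∀ r ∈ I.2, r.length = m) ∧
    ∃ χ : Fin I.1.length → Fin m, (∀ u v : Fin I.1.length, Adj I.1 u v → F (χ u) (χ v)) ∧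
      ∀ u : Fin I.1.length, Adj I.2 u (χ u)

/-- yes-instances of `(H, C, K)`-colouring: a graph `G` with an `H`-colouring in which every
`c ∈ C` has exactly `K c` preimages -/
def HCK {m : ℕ} {C : Type} (H : Fin m ⊕ C → Fin m ⊕ C → Prop) (K : C → ℕ)
    (M : List (List Bool)) : Prop :=
  H9G.IsGraph M ∧ ∃ χ : Fin M.length → Fin m ⊕ C,
    (∀ u v : Fin M.length, Adj M u v → H (χ u) (χ v)) ∧
      ∀ c : C, Set.ncard {u | χ u = Sum.inr c} = K c

lemma card_fin (n : ℕ) (p : ℕ → Prop) [DecidablePred p] :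
    Set.ncard {u : Fin n | p u} = ((Finset.range n).filter p).card := by
  rw [← Set.ncard_coe_finset, ← Set.ncard_image_of_injective _ Fin.val_injective]
  congr 1
  ext i
  simp only [Set.mem_image, Set.mem_ofPred_eq, Finset.coe_filter, Finset.mem_range]
  exact ⟨fun ⟨u, h, e⟩ => e ▸ ⟨u.2, h⟩, fun h => ⟨⟨i, h.1⟩, h.2, rfl⟩⟩

section
variable {m : ℕ} {C : Type} (H : Fin m ⊕ C → Fin m ⊕ C → Prop) (K : C → ℕ)

open Classical in
lemma hck_iff (d : Fin m ⊕ C) (M : List (List Bool)) : HCK H K M ↔ H9G.IsGraph M ∧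
    ∃ χ : ℕ → Fin m ⊕ C, (∀ u v, Adj M u v → H (χ u) (χ v)) ∧
      ∀ c : C, ((Finset.range M.length).filter fun u => χ u = Sum.inr c).card = K c := by
  refine and_congr_right fun hM => ⟨fun ⟨χ, h1, h2⟩ => ?_, fun ⟨χ, h1, h2⟩ => ?_⟩
  · refine ⟨fun i => if h : i < M.length then χ ⟨i, h⟩ else d, fun u v h => ?_, fun c => ?_⟩
    · simp only [dif_pos h.lt_left, dif_pos (h.lt_right hM)]
      exact h1 ⟨u, h.lt_left⟩ ⟨v, h.lt_right hM⟩ h
    · rw [← card_fin, ← h2 c]
      simp
  · exact ⟨fun u => χ u, fun u v h => h1 u v h, fun c => by rw [← h2 c, ← card_fin]⟩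

open Classical in
lemma hck_mat {α : Type} [DecidableEq α] (d : Fin m ⊕ C) (E : List α) (hE : E.Nodup) (a0 : α)
    (r : α → α → Bool) (hr : ∀ x ∈ E, ∀ y ∈ E, r x y = true → r y x = true) :
    HCK H K (mat E r) ↔ ∃ ψ : α → Fin m ⊕ C,
      (∀ x ∈ E, ∀ y ∈ E, r x y = true → H (ψ x) (ψ y)) ∧
      ∀ c : C, (E.toFinset.filter fun x => ψ x = Sum.inr c).card = K c := by
  rw [hck_iff H K d, and_iff_right (isGraph_mat E r hr), mat_length]
  constructor
  · rintro ⟨χ, h1, h2⟩
    refine ⟨fun x => χ (E.idxOf x), fun x hx y hy h => h1 _ _ ?_, fun c => ?_⟩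
    · rw [adj_mat E r a0, getD_idxOf hx, getD_idxOf hy]
      exact ⟨List.idxOf_lt_length_of_mem hx, List.idxOf_lt_length_of_mem hy, h⟩
    · rw [← card_filter_range hE a0, ← h2 c]
      congr 1
      refine Finset.filter_congr fun i hi => ?_
      simp only [idxOf_getD hE (Finset.mem_range.1 hi)]
  · rintro ⟨ψ, h1, h2⟩
    refine ⟨fun i => ψ (E.getD i a0), fun u v h => ?_, fun c => ?_⟩
    · rw [adj_mat E r a0] at h
      exact h1 _ (getD_mem h.1) _ (getD_mem h.2.1) h.2.2
    · rw [← h2 c, ← card_filter_range hE a0]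

def ver (N : ℕ) (Hm : List (List Bool)) (Kl : List (ℕ × ℕ)) (z : List (List Bool) × List ℕ) : Bool :=
  isGraphB z.1 && (List.range z.1.length).all (fun u => decide (z.2.getD u 0 < N)) &&
    ((List.range z.1.length).all fun u => (List.range z.1.length).all fun v =>
      !adjB z.1 u v || adjB Hm (z.2.getD u 0) (z.2.getD v 0)) &&
    Kl.all fun q => ((List.range z.1.length).filter fun u => z.2.getD u 0 == q.1).length == q.2

lemma ver_pt (N : ℕ) (Hm : List (List Bool)) (Kl : List (ℕ × ℕ)) : PT (ver N Hm Kl) := by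
  unfold ver; fun_prop

lemma len_filter (n : ℕ) (p : ℕ → Bool) :
    ((List.range n).filter p).length = ((Finset.range n).filter fun u => p u = true).card := by
  rw [← List.toFinset_card_of_nodup (List.nodup_range.filter _), List.toFinset_filter,
    List.toFinset_range]

lemma hck_np [Fintype C] (d : Fin m ⊕ C) : InNP (Lang (HCK H K)) := by
  classical
  set N := Fintype.card (Fin m ⊕ C)
  let e : Fin m ⊕ C ≃ Fin N := Fintype.equivFin _
  let g : ℕ → Fin m ⊕ C := fun i => if h : i < N then e.symm ⟨i, h⟩ else d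
  have hg : ∀ x, g (e x) = x := fun x => by simp [g]
  have hg' : ∀ i < N, ∀ x, g i = x ↔ i = e x := fun i hi x => by
    simp only [g, dif_pos hi, Equiv.symm_apply_eq, Fin.ext_iff]
  let Hm := mat (List.range N) fun i j => decide (H (g i) (g j))
  have hHm : ∀ i < N, ∀ j < N, Adj Hm i j ↔ H (g i) (g j) := fun i hi j hj => by
    rw [adj_mat _ _ 0]
    simp [List.getD_eq_getElem?_getD, hi, hj]
  let Kl : List (ℕ × ℕ) := (Finset.univ : Finset C).toList.map fun c => ((e (Sum.inr c) : ℕ), K c)
  refine inNP_Lang (ver_pt N Hm Kl) (Polynomial.X * Polynomial.C (2 * N + 2) + 1) ?_ ?_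
  · intro M hM
    obtain ⟨h0, χ, h1, h2⟩ := (hck_iff H K d M).1 hM
    have hw : ∀ u < M.length, ((List.range M.length).map fun u => (e (χ u) : ℕ)).getD u 0 = e (χ u) :=
      fun u hu => by simp [List.getD_eq_getElem?_getD, hu]
    refine ⟨(List.range M.length).map fun u => (e (χ u) : ℕ), ?_, ?_⟩
    · refine (size_list_le _ (2 * N + 1) ?_).trans ?_
      · intro a ha
        obtain ⟨u, -, rfl⟩ := List.mem_map.1 ha
        have := (e (χ u)).2
        simp
      · have := length_lt_size M
        simp only [List.length_map, List.length_range, Polynomial.eval_add, Polynomial.eval_mul,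
          Polynomial.eval_X, Polynomial.eval_C, Polynomial.eval_one]
        nlinarith
    · simp only [ver, Bool.and_eq_true, isGraphB_iff, List.all_eq_true, List.mem_range,
        decide_eq_true_eq, Bool.or_eq_true, Bool.not_eq_true', ← Bool.not_eq_true, adjB_iff,
        beq_iff_eq]
      refine ⟨⟨⟨h0, fun u hu => ?_⟩, fun u hu v hv => ?_⟩, fun q hq => ?_⟩
      · rw [hw u hu]; exact (e _).2
      · rw [hw u hu, hw v hv, hHm _ (e _).2 _ (e _).2, hg, hg, ← imp_iff_not_or]
        exact h1 u v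
      · obtain ⟨c, -, rfl⟩ := List.mem_map.1 hq
        dsimp only
        rw [len_filter, ← h2 c]
        congr 1
        refine Finset.filter_congr fun u hu => ?_
        rw [hw u (Finset.mem_range.1 hu), beq_iff_eq, ← Fin.ext_iff, e.apply_eq_iff_eq]
  · intro M w h
    simp only [ver, Bool.and_eq_true, isGraphB_iff, List.all_eq_true, List.mem_range,
      decide_eq_true_eq, Bool.or_eq_true, Bool.not_eq_true', ← Bool.not_eq_true, adjB_iff,
      beq_iff_eq] at h
    obtain ⟨⟨⟨h0, h1⟩, h2⟩, h3⟩ := h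
    refine (hck_iff H K d M).2 ⟨h0, fun u => g (w.getD u 0), fun u v huv => ?_, fun c => ?_⟩
    · have hu := huv.lt_left
      have hv := huv.lt_right h0
      exact (hHm _ (h1 u hu) _ (h1 v hv)).1 ((h2 u hu v hv).resolve_left (not_not.2 huv))
    · have := h3 _ (List.mem_map.2 ⟨c, by simp, rfl⟩)
      dsimp only at this ⊢
      rw [len_filter] at this
      rw [← this]
      congr 1
      refine Finset.filter_congr fun u hu => ?_
      rw [hg' _ (h1 u (Finset.mem_range.1 hu)), beq_iff_eq]

end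

abbrev P3 := ℕ × ℕ × ℕ

def extra (n : ℕ) : List P3 :=
  (List.range n).map (fun j => (1, j, 0)) ++
    (List.range n).flatMap fun j => (List.range (j + 2)).map fun t => (2, j, t)

def pts (T : List (List Bool)) (I : List (List Bool) × List (List Bool)) : List P3 :=
  (List.range I.1.length).map (fun u => (0, u, 0)) ++ extra T.length

def rel1 (T : List (List Bool)) (I : List (List Bool) × List (List Bool)) (x y : P3) : Bool :=
  (x.1 == 0 && y.1 == 0 && adjB I.1 x.2.1 y.2.1) ||
    (x.1 == 0 && y.1 == 1 && I.2.getD x.2.1 [] == T.getD y.2.1 []) ||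
    (x.1 == 1 && y.1 == 2 && x.2.1 == y.2.1)

def red (m : ℕ) (T : List (List Bool)) (I : List (List Bool) × List (List Bool)) :
    List (List Bool) :=
  bif isGraphB I.1 && I.2.length == I.1.length && I.2.all (fun r => r.length == m) then
    mat (pts T I) (fun x y => rel1 T I x y || rel1 T I y x) else [[]]

lemma red_pt (m : ℕ) (T : List (List Bool)) : PT (red m T) := by
  unfold red pts rel1; fun_prop

lemma mem_pts (T : List (List Bool)) (I : List (List Bool) × List (List Bool)) (x : P3) :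
    x ∈ pts T I ↔ (x.1 = 0 ∧ x.2.1 < I.1.length ∧ x.2.2 = 0) ∨ (x.1 = 1 ∧ x.2.1 < T.length ∧ x.2.2 = 0)
      ∨ (x.1 = 2 ∧ x.2.1 < T.length ∧ x.2.2 < x.2.1 + 2) := by
  obtain ⟨a, b, c⟩ := x
  simp only [pts, extra, List.mem_append, List.mem_map, List.mem_range, List.mem_flatMap,
    Prod.mk.injEq]
  constructor
  · rintro (⟨u, h, rfl, rfl, rfl⟩ | ⟨u, h, rfl, rfl, rfl⟩ | ⟨u, h, t, h', rfl, rfl, rfl⟩) <;> simp [*]
  · rintro (⟨rfl, h, rfl⟩ | ⟨rfl, h, rfl⟩ | ⟨rfl, h, h'⟩)
    · exact Or.inl ⟨b, h, rfl, rfl, rfl⟩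
    · exact Or.inr (Or.inl ⟨b, h, rfl, rfl, rfl⟩)
    · exact Or.inr (Or.inr ⟨b, h, c, h', rfl, rfl, rfl⟩)

lemma nodup_pts (T : List (List Bool)) (I : List (List Bool) × List (List Bool)) :
    (pts T I).Nodup := by
  have h1 : ∀ (n k : ℕ), ((List.range n).map (fun j => ((k, j, 0) : P3))).Nodup := fun n k =>
    List.nodup_range.map fun a b h => by simpa using h
  refine List.Nodup.append (h1 _ _) (List.Nodup.append (h1 _ _) ?_ ?_) ?_
  · rw [List.nodup_flatMap]
    refine ⟨fun j _ => List.nodup_range.map fun a b h => by simpa using h, ?_⟩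
    refine List.nodup_range.imp fun {a b} hab => ?_
    simp only [Function.onFun, List.disjoint_left, List.mem_map]
    rintro _ ⟨t, -, rfl⟩ ⟨s, -, h⟩
    exact hab (by simpa using (congrArg (fun p : P3 => p.2.1) h).symm)
  · simp only [List.disjoint_left, List.mem_map, List.mem_flatMap]
    rintro _ ⟨t, -, rfl⟩ ⟨s, -, u, -, h⟩
    simp at h
  · simp only [extra, List.disjoint_left, List.mem_map, List.mem_flatMap, List.mem_append]
    rintro _ ⟨t, -, rfl⟩ (⟨s, -, h⟩ | ⟨s, -, u, -, h⟩) <;> simp at h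

def HH {m : ℕ} (F : Fin m → Fin m → Prop) (T : List (List Bool)) :
    Fin m ⊕ Fin T.length × Bool → Fin m ⊕ Fin T.length × Bool → Prop
  | .inl x, .inl y => F x y
  | .inl x, .inr c => c.2 = false ∧ Adj T c.1 x
  | .inr c, .inl x => c.2 = false ∧ Adj T c.1 x
  | .inr c, .inr c' => c.1 = c'.1 ∧ c.2 ≠ c'.2

def KK (n : ℕ) (c : Fin n × Bool) : ℕ := bif c.2 then c.1 + 2 else 1

lemma HH_symm {m : ℕ} {F : Fin m → Fin m → Prop} (hF : ∀ x y, F x y → F y x)
    (T : List (List Bool)) : ∀ x y, HH F T x y → HH F T y x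
  | .inl _, .inl _, h => hF _ _ h
  | .inl _, .inr _, h => h
  | .inr _, .inl _, h => h
  | .inr _, .inr _, h => ⟨h.1.symm, h.2.symm⟩

lemma HH_b {m : ℕ} {F : Fin m → Fin m → Prop} {T : List (List Bool)} {j : Fin T.length} :
    ∀ {y}, HH F T (.inr (j, true)) y → y = .inr (j, false)
  | .inl _, h => by simp [HH] at h
  | .inr (i, b), h => by
    simp only [HH] at h
    obtain ⟨rfl, h⟩ := h
    cases b <;> simp_all

lemma red_iff {m : ℕ} {F : Fin m → Fin m → Prop} (hF : ∀ x y, F x y → F y x)
    (T : List (List Bool)) (j0 : Fin T.length)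
    (hT : ∀ r : List Bool, r.length = m → ∃ i < T.length, ∃ j < T.length, i ≠ j ∧
      T.getD i [] = r ∧ T.getD j [] = r) (I : List (List Bool) × List (List Bool)) :
    ListCol F I ↔ HCK (HH F T) (KK T.length) (red m T I) := by
  classical
  by_cases hv : H9G.IsGraph I.1 ∧ I.2.length = I.1.length ∧ ∀ r ∈ I.2, r.length = m
  swap
  · have : red m T I = [[]] := by
      unfold red
      rw [Bool.cond_eq_ite, if_neg]
      simpa [and_assoc] using hv
    rw [this]
    refine iff_of_false (fun h => hv ⟨h.1, h.2.1, h.2.2.1⟩) fun h => ?_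
    simpa using h.1.1
  have : red m T I = mat (pts T I) (fun x y => rel1 T I x y || rel1 T I y x) := by
    unfold red
    rw [Bool.cond_eq_ite, if_pos]
    simpa [and_assoc] using hv
  rw [this, hck_mat _ _ (.inr (j0, true)) _ (nodup_pts T I) (0, 0, 0) _
    (fun x _ y _ h => by rwa [Bool.or_comm])]
  obtain ⟨v1, v2, v3⟩ := hv
  constructor
  · rintro ⟨-, -, -, χ, h1, h2⟩
    let ψ : P3 → Fin m ⊕ Fin T.length × Bool := fun x =>
      if h : x.1 = 0 ∧ x.2.1 < I.1.length then .inl (χ ⟨x.2.1, h.2⟩)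
      else if h : x.2.1 < T.length then .inr (⟨x.2.1, h⟩, x.1 == 2) else .inr (j0, true)
    have key : ∀ x ∈ pts T I, ∀ y ∈ pts T I, rel1 T I x y = true → HH F T (ψ x) (ψ y) := by
      rintro ⟨a, b, c⟩ hx ⟨a', b', c'⟩ hy h
      rw [mem_pts] at hx hy
      simp only [rel1, Bool.or_eq_true, Bool.and_eq_true, beq_iff_eq, adjB_iff] at h hx hy
      rcases h with (⟨⟨rfl, rfl⟩, h⟩ | ⟨⟨rfl, rfl⟩, h⟩) | ⟨⟨rfl, rfl⟩, rfl⟩
      · have hb : b < I.1.length := by omega
        have hb' : b' < I.1.length := by omega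
        simp only [ψ, hb, hb', and_self, dif_pos, HH]
        exact h1 ⟨b, hb⟩ ⟨b', hb'⟩ h
      · have hb : b < I.1.length := by omega
        have hb' : b' < T.length := by omega
        have := h2 ⟨b, hb⟩
        simp only [Adj, h] at this
        simpa [ψ, hb, hb', HH, Adj] using this
      · have hb : b < T.length := by omega
        simp [ψ, hb, HH]
    refine ⟨ψ, fun x hx y hy h => ?_, ?_⟩
    · rcases Bool.or_eq_true_iff.1 h with h | h
      · exact key x hx y hy h
      · exact HH_symm hF T _ _ (key y hy x hx h)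
    · rintro ⟨j, b⟩
      cases b
      · rw [KK, cond_false, Finset.card_eq_one]
        refine ⟨(1, j, 0), ?_⟩
        ext ⟨a, b, c⟩
        simp only [Finset.mem_filter, List.mem_toFinset, mem_pts, Finset.mem_singleton,
          Prod.mk.injEq]
        constructor
        · rintro ⟨(⟨rfl, h, rfl⟩ | ⟨rfl, h, rfl⟩ | ⟨rfl, h, h'⟩), e⟩ <;>
            simp_all [ψ, Fin.ext_iff]
        · rintro ⟨rfl, rfl, rfl⟩
          simp [ψ]
      · rw [KK, cond_true, ← Finset.card_range (j + 2),
          ← Finset.card_image_of_injective (f := fun t => ((2, j, t) : P3)) _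
            (fun a b h => by simpa using h)]
        congr 1
        ext ⟨a, b, c⟩
        simp only [Finset.mem_filter, List.mem_toFinset, mem_pts, Finset.mem_image,
          Finset.mem_range, Prod.mk.injEq]
        constructor
        · rintro ⟨(⟨rfl, h, rfl⟩ | ⟨rfl, h, rfl⟩ | ⟨rfl, h, h'⟩), e⟩ <;>
            simp_all [ψ, Fin.ext_iff]
        · rintro ⟨t, ht, rfl, rfl, rfl⟩
          simp [ψ, ht]
  · rintro ⟨ψ, h1, h2⟩
    have adj : ∀ x ∈ pts T I, ∀ y ∈ pts T I, rel1 T I x y = true →
        HH F T (ψ x) (ψ y) ∧ HH F T (ψ y) (ψ x) := fun x hx y hy h =>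
      ⟨h1 x hx y hy (by simp [h]), h1 y hy x hx (by simp [h])⟩
    have uniq : ∀ j, ∀ x ∈ pts T I, ∀ y ∈ pts T I, ψ x = .inr (j, false) → ψ y = .inr (j, false) →
        x = y := by
      intro j x hx y hy e1 e2
      have := (h2 (j, false)).le
      rw [KK, cond_false] at this
      exact Finset.card_le_one.1 this x (by simp [hx, e1]) y (by simp [hy, e2])
    have two : ∀ u < I.1.length, ∃ i < T.length, ∃ j < T.length, i ≠ j ∧
        rel1 T I (0, u, 0) (1, i, 0) = true ∧ rel1 T I (0, u, 0) (1, j, 0) = true := by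
      intro u hu
      obtain ⟨i, hi, j, hj, hij, e1, e2⟩ := hT (I.2.getD u []) (v3 _ (getD_mem (by omega)))
      exact ⟨i, hi, j, hj, hij, by simp only [rel1, e1]; simp, by simp only [rel1, e2]; simp⟩
    have leaf : ∀ j, ∀ x ∈ pts T I, ψ x = .inr (j, true) →
        x.1 = 2 ∧ ψ (1, x.2.1, 0) = .inr (j, false) := by
      rintro j ⟨a, b, c⟩ hx e
      have hx' := (mem_pts T I _).1 hx
      simp only at hx'
      rcases hx' with ⟨rfl, h, rfl⟩ | ⟨rfl, h, rfl⟩ | ⟨rfl, h, h'⟩
      · obtain ⟨i, hi, k, hk, hik, e1, e2⟩ := two b h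
        have m1 : ((1, i, 0) : P3) ∈ pts T I := by simp [mem_pts, hi]
        have m2 : ((1, k, 0) : P3) ∈ pts T I := by simp [mem_pts, hk]
        have := uniq j _ m1 _ m2 (HH_b (e ▸ (adj _ hx _ m1 e1).1)) (HH_b (e ▸ (adj _ hx _ m2 e2).1))
        simp [hik] at this
      · have m1 : ((2, b, 0) : P3) ∈ pts T I := by simp [mem_pts, h]
        have m2 : ((2, b, 1) : P3) ∈ pts T I := by simp [mem_pts, h]
        have := uniq j _ m1 _ m2 (HH_b (e ▸ (adj _ hx _ m1 (by simp [rel1])).1))
          (HH_b (e ▸ (adj _ hx _ m2 (by simp [rel1])).1))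
        simp at this
      · have m1 : ((1, b, 0) : P3) ∈ pts T I := by simp [mem_pts, h]
        exact ⟨rfl, HH_b (e ▸ (adj _ m1 _ hx (by simp [rel1])).2)⟩
    have tau : ∀ j : Fin T.length, ∃ i : Fin T.length, ψ (1, i, 0) = .inr (j, false) ∧ j ≤ i := by
      intro j
      have hc := h2 (j, true)
      rw [KK, cond_true] at hc
      obtain ⟨x, hx⟩ := Finset.card_pos.1 (lt_of_lt_of_eq (Nat.succ_pos _) hc.symm)
      simp only [Finset.mem_filter, List.mem_toFinset] at hx
      obtain ⟨l1, l2⟩ := leaf j x hx.1 hx.2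
      have hx' := (mem_pts T I _).1 hx.1
      have hb : x.2.1 < T.length := by omega
      refine ⟨⟨x.2.1, hb⟩, l2, ?_⟩
      have : ((j, true).1 : ℕ) + 2 ≤ (Finset.range (x.2.1 + 2)).card := by
        rw [← hc]
        refine Finset.card_le_card_of_injOn (fun y => y.2.2) ?_ ?_
        · intro y hy
          simp only [Finset.coe_filter, List.mem_toFinset, Set.mem_ofPred_eq] at hy
          obtain ⟨k1, k2⟩ := leaf j y hy.1 hy.2
          have hy' := (mem_pts T I _).1 hy.1
          have := uniq j _ (by simp [mem_pts]; omega) _ (by simp [mem_pts, hb]) k2 l2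
          simp only [Prod.mk.injEq, true_and, and_true] at this
          simp only [Finset.coe_range, Set.mem_Iio]
          omega
        · intro y hy z hz e
          simp only [Finset.coe_filter, List.mem_toFinset, Set.mem_ofPred_eq] at hy hz
          obtain ⟨k1, k2⟩ := leaf j y hy.1 hy.2
          obtain ⟨k3, k4⟩ := leaf j z hz.1 hz.2
          have hy' := (mem_pts T I _).1 hy.1
          have hz' := (mem_pts T I _).1 hz.1
          have := uniq j _ (by simp [mem_pts]; omega) _ (by simp [mem_pts]; omega) k2 k4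
          simp only [Prod.mk.injEq, true_and, and_true] at this
          exact Prod.ext (by omega) (Prod.ext this e)
      rw [Finset.card_range] at this
      simpa [Fin.le_def] using this
    choose τ hτ hτ' using tau
    have hinj : Function.Injective τ := fun i j h => by
      have := hτ i
      rw [h, hτ j] at this
      simpa using this.symm
    have hid : ∀ j, τ j = j := by
      have s1 : ∑ j, (τ j : ℕ) = ∑ j : Fin T.length, (j : ℕ) :=
        (Finite.injective_iff_bijective.1 hinj).sum_comp (fun j : Fin T.length => (j : ℕ))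
      have := (Finset.sum_eq_sum_iff_of_le (s := Finset.univ) (f := fun j : Fin T.length => (j : ℕ))
        (g := fun j => (τ j : ℕ)) (fun j _ => hτ' j)).1 s1.symm
      exact fun j => Fin.ext (this j (Finset.mem_univ j)).symm
    have hc : ∀ j (h : j < T.length), ψ (1, j, 0) = .inr (⟨j, h⟩, false) := fun j h => by
      have := hτ ⟨j, h⟩
      rwa [hid] at this
    have col : ∀ u : Fin I.1.length, ∃ x : Fin m, ψ (0, u, 0) = .inl x ∧ Adj I.2 u x := by
      intro u
      obtain ⟨i, hi, k, hk, hik, e1, e2⟩ := two u u.2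
      have m0 : ((0, u, 0) : P3) ∈ pts T I := by simp [mem_pts]
      have a1 := (adj _ m0 _ (by simp [mem_pts, hi]) e1).1
      have a2 := (adj _ m0 _ (by simp [mem_pts, hk]) e2).1
      rw [hc i hi] at a1
      rw [hc k hk] at a2
      cases hψ : ψ (0, u, 0) with
      | inl x =>
        rw [hψ] at a1
        refine ⟨x, rfl, ?_⟩
        have e3 : I.2.getD u [] = T.getD i [] := by simpa [rel1] using e1
        unfold Adj
        rw [e3]
        exact a1.2
      | inr c =>
        rw [hψ] at a1 a2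
        have := a1.1.symm.trans a2.1
        simp [hik] at this
    choose χ hχ hχ' using col
    refine ⟨v1, v2, v3, χ, fun u v h => ?_, hχ'⟩
    have := (adj (0, u, 0) (by simp [mem_pts]) (0, v, 0) (by simp [mem_pts]) (by simp [rel1, h])).1
    rwa [hχ, hχ] at this

theorem result (m : ℕ) (F : Fin m → Fin m → Prop) (hF : ∀ x y, F x y → F y x)
    (h : NPComplete (Lang (ListCol F))) :
    ∃ (C : Type) (_ : Fintype C) (H : Fin m ⊕ C → Fin m ⊕ C → Prop) (K : C → ℕ),
      (∀ x y, H x y → H y x) ∧ (∀ x y, H (Sum.inl x) (Sum.inl y) ↔ F x y) ∧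
      NPComplete (Lang (HCK H K)) := by
  classical
  let L : List (List Bool) := (Finset.univ : Finset (Fin m → Bool)).toList.map List.ofFn
  have hL : ∀ r : List Bool, r.length = m → r ∈ L := by
    rintro r rfl
    exact List.mem_map.2 ⟨r.get, by simp, List.ofFn_get r⟩
  have hT : ∀ r : List Bool, r.length = m → ∃ i < (L ++ L).length, ∃ j < (L ++ L).length, i ≠ j ∧
      (L ++ L).getD i [] = r ∧ (L ++ L).getD j [] = r := by
    intro r hr
    obtain ⟨i, hi, e⟩ := List.getElem_of_mem (hL r hr)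
    refine ⟨i, by simp; omega, L.length + i, by simpa using hi, by omega, ?_, ?_⟩
    · simp [List.getD_eq_getElem?_getD, List.getElem?_append_left hi, hi, e]
    · simp [List.getD_eq_getElem?_getD, hi, e]
  obtain ⟨j0, hj0, -⟩ := hT (List.replicate m true) (by simp)
  refine ⟨Fin (L ++ L).length × Bool, inferInstance, HH F (L ++ L), KK _, HH_symm hF _,
    fun _ _ => Iff.rfl, hck_np _ _ (.inr (⟨j0, hj0⟩, true)), ?_⟩
  exact ((hard_of_npHard h.2 ([[]], []) (fun h => by simpa using h.1.1)).red (red_pt m (L ++ L))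
    (red_iff hF _ ⟨j0, hj0⟩ hT)).npHard

end Pool.Agent.Results.MP_58e31d_lc.Extension
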